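import Pool.Agent.FCN.TERJ

/-!
# Terjanian's theorem over quadratic fields

Let `p ≥ 7` be a prime with `2^(p-1) ≢ 1 mod p²`, let `K = ℚ(√d)` be a quadratic field, `d`
squarefree, and let `n` be a multiple of `2p`.  If `x^n + y^n = z^n` with `x, y, z ∈ K` nonzero,
then at every prime of `K` above `2p` the valuations of `x`, `y`, `z` are not all equal, that is,
every prime above `2p` divides exactly one of `x, y, z` (after scaling).  In particular there is
no solution in integers of `K` prime to `p` (first case).  If moreover `d ≢ 7 mod 8`, or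
`p ≡ 3 mod 4` and `p` is not inert in `K`, then this one is `x` or `y`, never `z`.
-/

open NumberField IsDedekindDomain

namespace Pool.Agent.Results.MP_50a406_nt.EvenExponents

attribute [-instance] Pool.Agent.FCW.instNeZero

/-- Let `K` be a quadratic field containing a square root of the squarefree integer `d ≠ 1`,
`p ≥ 7` a prime such that `p²` does not divide `2^(p-1) - 1`, `n` a multiple of `2p` and
`x, y, z ∈ K` with `xyz ≠ 0` and `x^n + y^n = z^n`.  Then for every prime `Q` of `K` above `2p`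
the `Q`-adic valuations of `x`, `y`, `z` are not all equal; and if `d ≢ 7 mod 8`, or `p ≡ 3 mod 4`
and the Legendre symbol `(d/p)` is not `-1`, then for every prime `Q` of `K` above `2p` the
`Q`-adic valuations of `x` and `y` are different. -/
theorem result (K : Type) [Field K] [NumberField K] (hK : Module.finrank ℚ K = 2) (d : ℤ)
    (hd : Squarefree d) (hd1 : d ≠ 1) (s : K) (hs : s ^ 2 = (d : K)) (p : ℕ) [Fact p.Prime]
    (h7 : 7 ≤ p) (hW : ¬ p ^ 2 ∣ 2 ^ (p - 1) - 1) (n : ℕ) (hn : 2 * p ∣ n)
    (x y z : K) (hxyz : x * y * z ≠ 0) (h : x ^ n + y ^ n = z ^ n) :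
    (∀ Q : HeightOneSpectrum (𝓞 K), ((2 * p : ℕ) : 𝓞 K) ∈ Q.asIdeal →
      ¬ (Q.valuation K x = Q.valuation K y ∧ Q.valuation K y = Q.valuation K z)) ∧
    ((d % 8 ≠ 7 ∨ (p % 4 = 3 ∧ legendreSym p d ≠ -1)) →
      ∀ Q : HeightOneSpectrum (𝓞 K), ((2 * p : ℕ) : 𝓞 K) ∈ Q.asIdeal →
        Q.valuation K x ≠ Q.valuation K y) :=
  Pool.Agent.FCN.final_T K hK d hd hd1 s hs p h7 hW n hn x y z hxyz h

end Pool.Agent.Results.MP_50a406_nt.EvenExponents
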