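import Pool.Agent.FQThree.Basic

/-!
Fermat's equation with odd exponent `n = 3 m` over an arbitrary quadratic field.
-/

namespace Pool.Agent.Results.MP_50a406_nt.ExponentThreeM

/-- Let `m > 1` be odd, `K` a quadratic field and `x, y, z ∈ K` a solution of
`x ^ (3 m) + y ^ (3 m) = z ^ (3 m)` with `x y z ≠ 0`.  Then either `A ^ m + B ^ m = C ^ m` is
solvable in nonzero rational integers, or `A ^ m + B ^ m = 3 ^ ((m - 1) / 2) C ^ m` is solvable in
nonzero rational integers and `K = ℚ(√(-3 k))` with an integer `k ≡ 1 (mod 3)`. -/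
theorem result (m : ℕ) (hm : Odd m) (hm1 : 1 < m)
    (K : Type*) [Field K] [NumberField K] (hK : Module.finrank ℚ K = 2)
    (x y z : K) (hxyz : x * y * z ≠ 0)
    (h : x ^ (3 * m) + y ^ (3 * m) = z ^ (3 * m)) :
    (∃ A B C : ℤ, A * B * C ≠ 0 ∧ A ^ m + B ^ m = C ^ m) ∨
      ((∃ A B C : ℤ, A * B * C ≠ 0 ∧ A ^ m + B ^ m = 3 ^ ((m - 1) / 2) * C ^ m) ∧
        ∃ k : ℤ, k % 3 = 1 ∧ ∃ δ : K, δ ^ 2 = ((-3 * k : ℤ) : K)) :=
  Pool.Agent.FQThree.main hK hm hm1 x y z hxyz h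

end Pool.Agent.Results.MP_50a406_nt.ExponentThreeM
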