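import Pool.Agent.FCM.All

/-!
# The first case of Fermat's equation over quadratic fields

Let `p ≥ 7` be a prime with `2^(p-1) ≢ 1 mod p²`, let `K = ℚ(√d)` be a quadratic field, `d`
squarefree, and let `x^n + y^n = z^n` with `n` a multiple of `p` and `x, y, z ∈ K` nonzero.
If the valuations of `x, y, z` are equal at one prime of `K` above `p` (first case), then
`d ≡ 5 mod 8`, i.e. `2` is inert in `K`, `(d/p) = (-3/p)`, and at every prime of `K` above `2p`
the valuations of `x, y, z` are equal and `x^(n/p) / y^(n/p)` is congruent to a primitive cube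
root of unity: `2`-adically and `p`-adically the solution is a trivial one.  In particular the
first case has no solution if `2` is not inert in `K`.
-/

open NumberField IsDedekindDomain

namespace Pool.Agent.Results.MP_50a406_nt.FirstCase

attribute [-instance] Pool.Agent.FCW.instNeZero

/-- Let `K` be a quadratic field containing a square root of the squarefree integer `d ≠ 1`,
`p ≥ 7` a prime such that `p²` does not divide `2^(p-1) - 1`, and
`x^(kp) + y^(kp) = z^(kp)` with `x, y, z ∈ K`, `xyz ≠ 0`.  Suppose that the valuations of `x`,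
`y`, `z` are equal at one prime `P` of `K` above `p`.  Then `d ≡ 5 mod 8`, `(d/p) = (-3/p)`, and
at every prime `Q` of `K` above `2p` the valuations of `x`, `y`, `z` are equal and
`v_Q(X² + XY + Y²) > v_Q(X²)` (in Mathlib's multiplicative valuation: `<`), where `X = x^k` and
`Y = y^k`. -/
theorem result (K : Type) [Field K] [NumberField K] (hK : Module.finrank ℚ K = 2)
    (d : ℤ) (hd : Squarefree d) (hd1 : d ≠ 1) (s : K) (hs : s ^ 2 = (d : K))
    (p : ℕ) [Fact p.Prime] (h7 : 7 ≤ p) (hW : ¬ p ^ 2 ∣ 2 ^ (p - 1) - 1)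
    (k : ℕ) (x y z : K) (hxyz : x * y * z ≠ 0)
    (h : x ^ (k * p) + y ^ (k * p) = z ^ (k * p))
    (P : HeightOneSpectrum (𝓞 K)) (hP : (p : 𝓞 K) ∈ P.asIdeal)
    (h1 : P.valuation K x = P.valuation K y) (h2 : P.valuation K y = P.valuation K z) :
    d % 8 = 5 ∧ legendreSym p d = legendreSym p (-3) ∧
      ∀ Q : HeightOneSpectrum (𝓞 K), ((2 * p : ℕ) : 𝓞 K) ∈ Q.asIdeal →
        Q.valuation K x = Q.valuation K y ∧ Q.valuation K y = Q.valuation K z ∧
        Q.valuation K ((x ^ k) ^ 2 + x ^ k * y ^ k + (y ^ k) ^ 2) <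
          Q.valuation K ((x ^ k) ^ 2) :=
  Pool.Agent.FCM.final_FC K hK d hd hd1 s hs p h7 hW k x y z hxyz h P hP h1 h2

end Pool.Agent.Results.MP_50a406_nt.FirstCase
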