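import Pool.Agent.FCS.Final

/-!
# Furtwängler's theorem over quadratic fields

Let `K` be a quadratic field, `p ≥ 5` a prime with `2^(p-1) ≢ 1 mod p²`, `n` a multiple of `p`
and `x^n + y^n = z^n` with `x, y, z ∈ K` nonzero.  A prime `Q` of `K` is said to divide one of
`x, y, z` if the `Q`-adic order of this one is larger than the orders of the two others (which
are then equal); if this happens for none of them, then the three orders are equal.  Let `r ≠ p`
be a prime with `r^(p-1) ≢ 1 mod p²`.

Suppose that `r = 2`, or `r = 3` is not inert in `K`, and some prime above `rp` divides one of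
`x, y, z`, or that every prime above `r` divides one of `x, y, z`, the same one for all of them if
`r ≡ 1 mod p`.  Then every prime above `r` or `p` divides one of `x, y, z`, and each of `x, y, z` is
divisible by some prime above `r` if and only if it is divisible by some prime above `p`.
-/

open NumberField IsDedekindDomain

namespace Pool.Agent.Results.MP_50a406_nt.Furtwaengler

attribute [-instance] Pool.Agent.FCW.instNeZero

/-- Let `K` be a quadratic field, `p ≥ 5` a prime such that `p²` does not divide `2^(p-1) - 1`,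
`p ∣ n`, `x^n + y^n = z^n` with `x, y, z ∈ K`, `xyz ≠ 0`, and `r ≠ p` a prime such that `p²` does
not divide `r^(p-1) - 1`.  (`Q.valuation` is Mathlib's multiplicative valuation:
`Q.valuation K x < Q.valuation K y` means that the `Q`-adic order of `x` is larger.)
Suppose that `r = 2`, or `r = 3` and `3` is not inert in `K`, and the orders of `x, y, z` are not
all equal at some prime above `r p`, or that they are not all equal at every prime above `r` and,
in case `p ∣ r - 1`, the variable of larger order is the same at all primes above `r`.  Then the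
orders are not all equal at every prime above `r p`, and each variable has the larger order at some
prime above `r` if and only if it has the larger order at some prime above `p`. -/
theorem result (K : Type) [Field K] [NumberField K]
    (hK : Module.finrank ℚ K = 2) (p : ℕ)
    (hp : p.Prime) (h5 : 5 ≤ p) (hW : ¬ p ^ 2 ∣ 2 ^ (p - 1) - 1) (n : ℕ) (hn : p ∣ n)
    (x y z : K) (hxyz : x * y * z ≠ 0) (h : x ^ n + y ^ n = z ^ n) (r : ℕ) (hr : r.Prime)
    (hrp : r ≠ p) (hWr : ¬ p ^ 2 ∣ r ^ (p - 1) - 1)
    (H : ((r = 2 ∨ r = 3 ∧ ¬ (Ideal.span {(3 : 𝓞 K)}).IsPrime) ∧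
        ∃ Q : HeightOneSpectrum (𝓞 K), ((r * p : ℕ) : 𝓞 K) ∈ Q.asIdeal ∧
        ¬ (Q.valuation K x = Q.valuation K y ∧ Q.valuation K y = Q.valuation K z)) ∨
      ((∀ R : HeightOneSpectrum (𝓞 K), (r : 𝓞 K) ∈ R.asIdeal →
          ¬ (R.valuation K x = R.valuation K y ∧ R.valuation K y = R.valuation K z)) ∧
        (¬ p ∣ r - 1 ∨ ∀ R R' : HeightOneSpectrum (𝓞 K), (r : 𝓞 K) ∈ R.asIdeal →
          (r : 𝓞 K) ∈ R'.asIdeal →
          (R.valuation K x < R.valuation K y → R'.valuation K x < R'.valuation K y) ∧
          (R.valuation K y < R.valuation K z → R'.valuation K y < R'.valuation K z) ∧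
          (R.valuation K z < R.valuation K x → R'.valuation K z < R'.valuation K x)))) :
    (∀ Q : HeightOneSpectrum (𝓞 K), ((r * p : ℕ) : 𝓞 K) ∈ Q.asIdeal →
      ¬ (Q.valuation K x = Q.valuation K y ∧ Q.valuation K y = Q.valuation K z)) ∧
    ((∃ R : HeightOneSpectrum (𝓞 K), (r : 𝓞 K) ∈ R.asIdeal ∧
        R.valuation K x < R.valuation K y) ↔
      ∃ P : HeightOneSpectrum (𝓞 K), (p : 𝓞 K) ∈ P.asIdeal ∧
        P.valuation K x < P.valuation K y) ∧
    ((∃ R : HeightOneSpectrum (𝓞 K), (r : 𝓞 K) ∈ R.asIdeal ∧
        R.valuation K y < R.valuation K z) ↔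
      ∃ P : HeightOneSpectrum (𝓞 K), (p : 𝓞 K) ∈ P.asIdeal ∧
        P.valuation K y < P.valuation K z) ∧
    ((∃ R : HeightOneSpectrum (𝓞 K), (r : 𝓞 K) ∈ R.asIdeal ∧
        R.valuation K z < R.valuation K x) ↔
      ∃ P : HeightOneSpectrum (𝓞 K), (p : 𝓞 K) ∈ P.asIdeal ∧
        P.valuation K z < P.valuation K x) :=
  Pool.Agent.FCS.final_FS K hK p hp h5 hW n hn x y z hxyz h r hr hrp hWr H

end Pool.Agent.Results.MP_50a406_nt.Furtwaengler
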